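import Pool.Agent.Y63.NV.Stm4
import Pool.Agent.Y63.NV.Cutw
import Pool.Agent.Y930.NV.Cen
import Pool.Agent.Y474.NV.Dgn

/-!
# NV4-DGNL: assembly of the count of Dade, Glauberman and Nagao with central characters
-/

open scoped Classical

noncomputable section

namespace Pool.Agent.Y587.NV

open Pool.Agent.Y63.AWC (IsIrreducibleCharacter)
open Pool.Agent.Y63.NV
open Pool.Agent.Y474.NV (cent_le kmap kmap_bij)
open Pool.Agent.Y930.NV (irr_inflate)

/-- the restriction of a class function to the centralizer of a normal subgroup -/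
theorem cut_class {F N : Type} [Field F] [Group N] (Q : Subgroup N) [hQ : Q.Normal] (f : N → F)
    (hf : IsClassFun f) : IsClassFun (cut f (Subgroup.centralizer (Q : Set N))) := by
  intro g x
  have h1 : g * x * g⁻¹ ∈ Subgroup.centralizer (Q : Set N) ↔
      x ∈ Subgroup.centralizer (Q : Set N) := by
    have hn : (Subgroup.centralizer (Q : Set N)).Normal := inferInstance
    constructor
    · intro h
      have h2 := hn.conj_mem _ h g⁻¹
      have h3 : g⁻¹ * (g * x * g⁻¹) * g⁻¹⁻¹ = x := by group
      rwa [h3] at h2
    · intro h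
      exact hn.conj_mem _ h g
  unfold cut
  by_cases h : x ∈ Subgroup.centralizer (Q : Set N)
  · rw [if_pos h, if_pos (h1.2 h)]
    exact hf g x
  · rw [if_neg h, if_neg fun h2 => h (h1.1 h2)]

/-- characters of defect zero of a quotient as weights -/
theorem count {p : ℕ} [Fact p.Prime] {F : Type} [Field F] [CharP F p]
    (red : integralClosure ℤ ℂ →+* F) {N L : Type} [Group N] [Group L] [Finite N] [Finite L]
    (π : N →* L) (hπ : Function.Surjective π) (Q : Subgroup N) (hQ : π.ker = Q)
    (hpQ : IsPGroup p Q) (f : N → F) (hf : IsClassFun f) (fL : L → F)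
    (hfL : ∀ y, ∑ᶠ x : N, (if π x = y then cut f (Subgroup.centralizer (Q : Set N)) x else 0) =
      fL y) (c : F) :
    Nat.card {χ : L → ℂ // (IsIrreducibleCharacter χ ∧
      ∃ n : ℕ, χ 1 = (n : ℂ) ∧ n.factorization p = (Nat.card L).factorization p) ∧
      centralValue red χ fL = c} = Nw p red Q f c := by
  subst hQ
  have hNn : (π.ker).Normal := inferInstance
  have hcard : Nat.card N = Nat.card L * Nat.card π.ker := by
    rw [Subgroup.card_eq_card_quotient_mul_card_subgroup π.ker]
    congr 1
    exact Nat.card_congr (QuotientGroup.quotientKerEquivOfSurjective π hπ).toEquiv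
  have hfact : (Nat.card N).factorization p = (Nat.card L).factorization p +
      (Nat.card π.ker).factorization p := by
    rw [hcard, Nat.factorization_mul Nat.card_pos.ne' Nat.card_pos.ne', Finsupp.add_apply]
  have hwt : ∀ χ : L → ℂ, IsIrreducibleCharacter χ →
      (∃ n : ℕ, χ 1 = (n : ℂ) ∧ n.factorization p = (Nat.card L).factorization p) →
      IsWt p π.ker (fun x => χ (π x)) := by
    intro χ h1 ⟨n, h2, h3⟩
    refine ⟨irr_inflate π hπ h1, fun q hq x => ?_, n, ?_, ?_⟩
    · show χ (π (q * x)) = χ (π x)
      rw [map_mul, (MonoidHom.mem_ker).1 hq, one_mul]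
    · show χ (π 1) = n
      rw [map_one]
      exact h2
    · rw [h3, hfact]
  have hcv : ∀ χ : L → ℂ, IsIrreducibleCharacter χ → IsWt p π.ker (fun x => χ (π x)) →
      centralValue red (fun x => χ (π x)) f = centralValue red χ fL := by
    intro χ h1 h2
    rw [← cutw Pool.Agent.Y930.NV.inf p F red N π.ker f _ hNn hpQ hf h2,
      Pool.Agent.Y930.NV.inf F red N L π χ _ hπ h1 (cut_class π.ker f hf)]
    exact congrArg (centralValue red χ) (funext hfL)
  unfold Nw
  refine Nat.card_eq_of_bijective (fun χ => ⟨fun x => χ.1 (π x), hwt χ.1 χ.2.1.1 χ.2.1.2,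
    (hcv χ.1 χ.2.1.1 (hwt χ.1 χ.2.1.1 χ.2.1.2)).trans χ.2.2⟩) ⟨?_, ?_⟩
  · intro χ χ' h
    apply Subtype.ext
    funext y
    obtain ⟨x, rfl⟩ := hπ y
    exact congrFun (congrArg Subtype.val h) x
  · rintro ⟨χ', h1, h2⟩
    obtain ⟨χ'', h3, h4⟩ := deflate π.ker h1.irr h1.inflated
    obtain ⟨e, he⟩ : ∃ e : N ⧸ π.ker ≃* L, e = QuotientGroup.quotientKerEquivOfSurjective π hπ :=
      ⟨_, rfl⟩
    have he2 : ∀ x : N, e.symm (π x) = (x : N ⧸ π.ker) := by
      intro x
      rw [MulEquiv.symm_apply_eq, he]
      rfl
    have h5 : IsIrreducibleCharacter (fun y => χ'' (e.symm y)) :=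
      irr_inflate e.symm.toMonoidHom e.symm.surjective h3
    have h6 : (fun x => (fun y => χ'' (e.symm y)) (π x)) = χ' := by
      funext x
      show χ'' (e.symm (π x)) = χ' x
      rw [he2, h4]
    obtain ⟨n, hn1, hn2⟩ := h1.defectZero
    have h7 : ∃ n : ℕ, (fun y => χ'' (e.symm y)) 1 = (n : ℂ) ∧
        n.factorization p = (Nat.card L).factorization p := by
      refine ⟨n, ?_, by omega⟩
      have := congrFun h6 1
      rw [map_one] at this
      rw [this]
      exact hn1
    have h8 : IsWt p π.ker (fun x => (fun y => χ'' (e.symm y)) (π x)) := by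
      rw [h6]
      exact h1
    refine ⟨⟨fun y => χ'' (e.symm y), ⟨h5, h7⟩, ?_⟩, ?_⟩
    · rw [← hcv _ h5 h8, h6]
      exact h2
    · exact Subtype.ext h6

theorem dgnL (h1 : S_DGN1L) (h2 : S_DGN2L) : S_DGNL := by
  intro p _ F _ _ red Y _ _ X _ z c hX hz
  rw [h1 p F red Y X z c hX hz, h2 p F Y X z c hX hz]
  refine finsum_congr fun R => ?_
  split_ifs with hR
  · obtain ⟨hRp, hXR, hXR'⟩ := hR
    have hzK : InZ (⊤ : Subgroup ↥(X ⊓ Subgroup.centralizer (R : Set Y))) (fun x => z x) :=
      ⟨fun g x => hz.conj g x, fun x hx => absurd (Subgroup.mem_top x) hx⟩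
    rw [← h1 p F red ↥(X ⊓ Subgroup.centralizer (R : Set Y)) ⊤ (fun x => z x) c ?_ hzK]
    · congr 1
      obtain ⟨e, he⟩ : ∃ e : ↥(X ⊓ Subgroup.centralizer (R : Set Y)) ≃*
        (Subgroup.normalizer (R : Set Y) ⧸ R.subgroupOf (Subgroup.normalizer (R : Set Y))),
        e = MulEquiv.ofBijective _ (kmap_bij X R hXR hXR') := ⟨_, rfl⟩
      obtain ⟨π, hπd⟩ : ∃ π : Subgroup.normalizer (R : Set Y) →*
        (⊤ : Subgroup ↥(X ⊓ Subgroup.centralizer (R : Set Y))),
        π = (Subgroup.topEquiv.symm.toMonoidHom.comp e.symm.toMonoidHom).comp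
          (QuotientGroup.mk' _) := ⟨_, rfl⟩
      have hπ : Function.Surjective π := by
        rw [hπd]
        exact (Subgroup.topEquiv.symm.surjective.comp e.symm.surjective).comp
          (QuotientGroup.mk'_surjective _)
      have hker : π.ker = R.subgroupOf (Subgroup.normalizer (R : Set Y)) := by
        ext x
        rw [MonoidHom.mem_ker, hπd]
        constructor
        · intro h
          have h3 : e.symm (x : _ ⧸ R.subgroupOf (Subgroup.normalizer (R : Set Y))) = 1 :=
            Subgroup.topEquiv.symm.injective (h.trans (map_one _).symm)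
          have h4 := (MulEquiv.symm_apply_eq e).1 h3
          rw [map_one] at h4
          exact (QuotientGroup.eq_one_iff _).1 h4
        · intro h
          have h4 := (QuotientGroup.eq_one_iff x).2 h
          show Subgroup.topEquiv.symm (e.symm (x : _ ⧸ _)) = 1
          rw [h4, map_one, map_one]
      have hpR : IsPGroup p (R.subgroupOf (Subgroup.normalizer (R : Set Y))) :=
        hRp.comap_of_injective _ (Subgroup.subtype_injective _)
      have hcl : IsClassFun (fun x : Subgroup.normalizer (R : Set Y) => z x) :=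
        fun g x => hz.conj g x
      rw [← count red π hπ _ hker hpR (fun x => z x) hcl (fun y => z (y : ↥(X ⊓ Subgroup.centralizer (R : Set Y)))) ?_ c]
      · unfold numInvDzL
        refine Nat.card_congr (Equiv.subtypeEquivRight fun χ => ?_)
        constructor
        · rintro ⟨⟨h3, h4, -⟩, h5⟩
          exact ⟨⟨h3, h4⟩, h5⟩
        · rintro ⟨⟨h3, h4⟩, h5⟩
          refine ⟨⟨h3, h4, fun y a b hab => ?_⟩, h5⟩
          obtain ⟨V, i1, i2, i3, ρ, -, rfl⟩ := h3
          have h3 : b = ⟨y, Subgroup.mem_top y⟩ * a * ⟨y, Subgroup.mem_top y⟩⁻¹ := Subtype.ext hab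
          rw [h3]
          exact ρ.char_conj _ _
      · intro y
        obtain ⟨k, hk⟩ : ∃ k : ↥(X ⊓ Subgroup.centralizer (R : Set Y)), k = y := ⟨_, rfl⟩
        have hπk : π (Subgroup.inclusion (cent_le X R) k) = y := by
          rw [hπd]
          show Subgroup.topEquiv.symm (e.symm (kmap X R k)) = y
          have : e.symm (kmap X R k) = k := by
            rw [MulEquiv.symm_apply_eq, he]
            rfl
          rw [this]
          exact Subtype.ext hk
        rw [finsum_eq_single _ (Subgroup.inclusion (cent_le X R) k)]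
        · rw [if_pos hπk]
          unfold cut
          rw [if_pos]
          · show z (k : Y) = z _
            rw [hk]
          · rw [Subgroup.mem_centralizer_iff]
            intro r hr
            apply Subtype.ext
            exact Subgroup.mem_centralizer_iff.1 k.2.2 r hr
        · intro x hx
          by_cases hxy : π x = y
          · rw [if_pos hxy]
            unfold cut
            by_cases hxC : x ∈ Subgroup.centralizer
                ((R.subgroupOf (Subgroup.normalizer (R : Set Y)) : Subgroup _) : Set _)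
            · rw [if_pos hxC]
              show z (x : Y) = 0
              apply hz.supp
              intro hxX
              apply hx
              have h3 : π (x⁻¹ * Subgroup.inclusion (cent_le X R) k) = 1 := by
                rw [map_mul, map_inv, hxy, hπk, inv_mul_cancel]
              have h4 := (MonoidHom.mem_ker).2 h3
              rw [hker, Subgroup.mem_subgroupOf] at h4
              have h5 : (x : Y)⁻¹ * (k : Y) ∈ X ⊓ R := ⟨X.mul_mem (X.inv_mem hxX) k.2.1, h4⟩
              rw [hXR', Subgroup.mem_bot] at h5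
              apply Subtype.ext
              show (x : Y) = (k : Y)
              rw [inv_mul_eq_one] at h5
              exact h5
            · rw [if_neg hxC]
          · rw [if_neg hxy]
    · intro q
      refine ⟨0, ?_⟩
      induction q using QuotientGroup.induction_on with
      | H n =>
        rw [pow_zero, pow_one]
        exact (QuotientGroup.eq_one_iff _).2 (Subgroup.mem_top _)
  · rfl

end Pool.Agent.Y587.NV
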